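import Pool.Agent.H295R2.T8

set_option autoImplicit false

open Filter Topology Finset

namespace Pool.Agent.Q32.DS

open Pool.Agent.H295R2 (zetaSup half_le_zetaSup zetaSup_le_one Mx maxM)

noncomputable section

theorem RH_of (h : ∀ s : ℂ, 1 / 2 < s.re → s ≠ 1 → riemannZeta s ≠ 0) : RiemannHypothesis := by
  intro s hs htriv h1
  by_contra hne
  rcases lt_or_gt_of_ne hne with hlt | hgt
  · by_cases h0 : s.re < 0
    · -- trivial zeros
      have h2 : ∀ n : ℕ, (1 - s) ≠ -n := by
        intro n hn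
        have := congrArg Complex.re hn
        simp at this
        have : (0:ℝ) ≤ n := Nat.cast_nonneg n
        linarith
      have h3 : (1 - s) ≠ 1 := by
        intro h3
        have := congrArg Complex.re h3
        simp at this
        linarith
      have key := riemannZeta_one_sub h2 h3
      rw [sub_sub_cancel, hs] at key
      have hz : riemannZeta (1 - s) ≠ 0 := riemannZeta_ne_zero_of_one_lt_re (by simp; linarith)
      have hG : Complex.Gamma (1 - s) ≠ 0 := Complex.Gamma_ne_zero h2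
      have hp : (2 * (Real.pi : ℂ)) ^ (-(1 - s)) ≠ 0 := by
        rw [Complex.cpow_ne_zero_iff]
        left
        have := Real.pi_ne_zero
        simpa using this
      have hc : Complex.cos (Real.pi * (1 - s) / 2) = 0 := by
        by_contra hc
        exact (mul_ne_zero (mul_ne_zero (mul_ne_zero (mul_ne_zero two_ne_zero hp) hG) hc) hz) key.symm
      rw [Complex.cos_eq_zero_iff] at hc
      obtain ⟨k, hk⟩ := hc
      have hpi : (Real.pi : ℂ) ≠ 0 := by exact_mod_cast Real.pi_ne_zero
      have hs2 : s = -2 * (k : ℂ) := by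
        field_simp at hk
        linear_combination (-1 : ℂ) * hk
      have hkpos : 0 < k := by
        have := congrArg Complex.re hs2
        simp at this
        have h5 : (0:ℝ) < k := by linarith
        exact_mod_cast h5
      apply htriv
      refine ⟨(k - 1).toNat, ?_⟩
      have h6 : (((k - 1).toNat : ℕ) : ℂ) = (k : ℂ) - 1 := by
        have : (((k - 1).toNat : ℤ)) = k - 1 := Int.toNat_of_nonneg (by omega)
        have h7 : (((k - 1).toNat : ℤ) : ℂ) = ((k - 1 : ℤ) : ℂ) := by rw [this]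
        push_cast at h7
        exact_mod_cast h7
      rw [h6, hs2]
      ring
    · have h2 : ∀ n : ℕ, s ≠ -n := by
        intro n hn
        rcases Nat.eq_zero_or_pos n with h5 | h5
        · rw [hn, h5] at hs
          simp [riemannZeta_zero] at hs
        · have := congrArg Complex.re hn
          simp at this
          have h6 : (1:ℝ) ≤ n := by exact_mod_cast h5
          linarith
      have key := riemannZeta_one_sub h2 h1
      rw [hs, mul_zero] at key
      refine h (1 - s) (by simp; linarith) ?_ key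
      intro h3
      have : s = 0 := by linear_combination -h3
      rw [this] at hs
      simp [riemannZeta_zero] at hs
  · exact h s hgt h1 hs



theorem RH_iff : RiemannHypothesis ↔ zetaSup ≤ 1 / 2 := by
  constructor
  · intro h
    refine Real.sSup_le ?_ (by norm_num)
    rintro x ⟨s, ⟨hs, h0, h1⟩, rfl⟩
    refine (h s hs ?_ ?_).le
    · rintro ⟨n, hn⟩
      rw [hn] at h0
      simp at h0
      have : (0 : ℝ) ≤ n := Nat.cast_nonneg n
      linarith
    · intro hs1
      rw [hs1] at h1
      simp at h1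
  · intro h
    refine RH_of fun s hs hs1 h0 => ?_
    have hlt : s.re < 1 := by
      by_contra hcon
      exact riemannZeta_ne_zero_of_one_le_re (not_lt.mp hcon) h0
    have h2 : s.re ≤ zetaSup := le_csSup Pool.Agent.H295R2.zset_bdd ⟨s, ⟨h0, by linarith, hlt⟩, rfl⟩
    linarith

/-- the summatory function of the Liouville function -/
def Lx (y : ℝ) : ℝ := ∑ n ∈ Finset.Icc 1 ⌊y⌋₊, (-1 : ℝ) ^ ArithmeticFunction.cardFactors n

/-- the value of a summatory function at a natural number -/
def Mn (n : ℕ) : ℝ := ∑ k ∈ Finset.Icc 1 n, ((ArithmeticFunction.moebius k : ℤ) : ℝ)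

/-- the value of a summatory function at a natural number -/
def Ln (n : ℕ) : ℝ := ∑ k ∈ Finset.Icc 1 n, (-1 : ℝ) ^ ArithmeticFunction.cardFactors k

lemma Mx_eq (y : ℝ) : Mx y = Mn ⌊y⌋₊ := rfl
lemma Lx_eq (y : ℝ) : Lx y = Ln ⌊y⌋₊ := rfl

lemma sq_unique {m b c a : ℕ} (hm : m ≠ 0) (hb : b ≠ 0) (hc : Squarefree c) (ha : Squarefree a)
    (h : m ^ 2 * c = b ^ 2 * a) : m = b := by
  have key : ∀ {m b c a : ℕ}, m ≠ 0 → b ≠ 0 → Squarefree c → Squarefree a → m ^ 2 * c = b ^ 2 * a → m ∣ b := by
    intro m b c a hm hb hc ha h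
    rw [← Nat.factorization_le_iff_dvd hm hb]
    intro p
    by_cases hp : p.Prime
    · have h1 : (m ^ 2 * c).factorization p = (b ^ 2 * a).factorization p := by rw [h]
      rw [Nat.factorization_mul (pow_ne_zero _ hm) hc.ne_zero, Nat.factorization_mul (pow_ne_zero _ hb) ha.ne_zero,
        Nat.factorization_pow, Nat.factorization_pow] at h1
      simp only [Finsupp.coe_add, Finsupp.coe_smul, Pi.add_apply, Pi.smul_apply, smul_eq_mul] at h1
      have h2 : a.factorization p ≤ 1 := ha.natFactorization_le_one p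
      omega
    · rw [Nat.factorization_eq_zero_of_not_prime _ hp]
      exact Nat.zero_le _
  exact Nat.dvd_antisymm (key hm hb hc ha h) (key hb hm ha hc h.symm)

theorem lam_eq (x n : ℕ) (hn : n ∈ Icc 1 x) :
    ((-1 : ℝ) ^ (ArithmeticFunction.cardFactors n)) =
      ∑ m ∈ Icc 1 x, if m ^ 2 ∣ n then ((ArithmeticFunction.moebius (n / m ^ 2) : ℤ) : ℝ) else 0 := by
  rw [Finset.mem_Icc] at hn
  obtain ⟨a, b, hab, ha⟩ := Nat.sq_mul_squarefree n
  have hb0 : b ≠ 0 := by
    rintro rfl
    simp at hab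
    omega
  have hbn : b ≤ n := by
    rw [← hab]
    have : 0 < a := Nat.pos_of_ne_zero ha.ne_zero
    nlinarith [Nat.pos_of_ne_zero hb0]
  have hdiv : n / b ^ 2 = a := by
    rw [← hab]
    exact Nat.mul_div_cancel_left a (by positivity)
  rw [Finset.sum_eq_single b]
  · rw [if_pos ⟨a, hab.symm⟩, hdiv, ArithmeticFunction.moebius_apply_of_squarefree ha, ← hab,
      ArithmeticFunction.cardFactors_mul (pow_ne_zero _ hb0) ha.ne_zero,
      ArithmeticFunction.cardFactors_pow, pow_add, pow_mul]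
    norm_num
  · intro m hm hmb
    rw [Finset.mem_Icc] at hm
    split_ifs with hd
    · obtain ⟨c, hc⟩ := hd
      have hm0 : m ≠ 0 := by omega
      have h1 : n / m ^ 2 = c := by
        rw [hc]
        exact Nat.mul_div_cancel_left c (by positivity)
      rw [h1]
      have h2 : ¬ Squarefree c := by
        intro hs
        exact hmb (sq_unique hm0 hb0 hs ha (by rw [← hc, hab]))
      rw [ArithmeticFunction.moebius_eq_zero_of_not_squarefree h2]
      simp
    · rfl
  · intro hb
    exact absurd (Finset.mem_Icc.2 ⟨Nat.pos_of_ne_zero hb0, hbn.trans hn.2⟩) hb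

/-- sums over the multiples of `q` -/
lemma sum_mult {q x : ℕ} (hq : 0 < q) (f : ℕ → ℝ) :
    ∑ n ∈ Icc 1 x, (if q ∣ n then f n else 0) = ∑ l ∈ Icc 1 (x / q), f (l * q) := by
  rw [← Finset.sum_filter]
  symm
  refine Finset.sum_nbij (fun l => l * q) ?_ ?_ ?_ ?_
  · intro l hl
    rw [Finset.mem_Icc] at hl
    rw [Finset.mem_filter, Finset.mem_Icc]
    exact ⟨⟨Nat.mul_pos hl.1 hq, (Nat.le_div_iff_mul_le hq).1 hl.2⟩, Dvd.intro_left l rfl⟩
  · intro l _ l' _ h
    exact Nat.eq_of_mul_eq_mul_right hq h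
  · intro n hn
    rw [Finset.coe_filter, Set.mem_ofPred_eq, Finset.mem_Icc] at hn
    obtain ⟨⟨h2, h3⟩, c, hc⟩ := hn
    refine ⟨c, ?_, by simp only [hc]; ring⟩
    rw [Finset.coe_Icc, Set.mem_Icc]
    refine ⟨?_, ?_⟩
    · rcases Nat.eq_zero_or_pos c with h | h
      · rw [h, mul_zero] at hc; omega
      · exact h
    · rw [Nat.le_div_iff_mul_le hq, mul_comm, ← hc]
      exact h3
  · intro l _
    rfl

theorem Ln_eq {x y : ℕ} (hxy : x ≤ y) : Ln x = ∑ m ∈ Icc 1 y, Mn (x / m ^ 2) := by
  have h0 : Ln x = ∑ m ∈ Icc 1 x, Mn (x / m ^ 2) := by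
    unfold Ln
    rw [Finset.sum_congr rfl (fun n hn => lam_eq x n hn), Finset.sum_comm]
    refine Finset.sum_congr rfl fun m hm => ?_
    rw [Finset.mem_Icc] at hm
    have hm2 : 0 < m ^ 2 := by
      have : 0 < m := hm.1
      positivity
    rw [sum_mult hm2 (fun n => ((ArithmeticFunction.moebius (n / m ^ 2) : ℤ) : ℝ))]
    unfold Mn
    refine Finset.sum_congr rfl fun l _ => ?_
    rw [Nat.mul_div_cancel l hm2]
  rw [h0]
  refine Finset.sum_subset (Finset.Icc_subset_Icc_right hxy) fun m hm hm' => ?_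
  rw [Finset.mem_Icc] at hm
  rw [Finset.mem_Icc, not_and, not_le] at hm'
  have h1 : x < m ^ 2 := by nlinarith [hm' hm.1, hm.1]
  rw [Nat.div_eq_of_lt h1]
  simp [Mn]

theorem Mn_eq (x : ℕ) : Mn x = ∑ k ∈ Icc 1 x, ((ArithmeticFunction.moebius k : ℤ) : ℝ) * Ln (x / k ^ 2) := by
  have h1 : ∀ k ∈ Icc 1 x, ((ArithmeticFunction.moebius k : ℤ) : ℝ) * Ln (x / k ^ 2) =
      ∑ n ∈ Icc 1 x, (if k ∣ n then ((ArithmeticFunction.moebius k : ℤ) : ℝ) * Mn (x / n ^ 2) else 0) := by
    intro k hk
    rw [Finset.mem_Icc] at hk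
    rw [Ln_eq (Nat.div_le_self x (k ^ 2)), sum_mult hk.1 (fun n => ((ArithmeticFunction.moebius k : ℤ) : ℝ) * Mn (x / n ^ 2)),
      Finset.mul_sum]
    symm
    have h2 : ∀ m, Mn (x / (m * k) ^ 2) = Mn (x / k ^ 2 / m ^ 2) := by
      intro m
      rw [Nat.div_div_eq_div_mul]
      congr 2
      ring
    simp only [h2]
    refine Finset.sum_subset (Finset.Icc_subset_Icc_right (Nat.div_le_self x k)) fun m hm hm' => ?_
    rw [Finset.mem_Icc] at hm
    rw [Finset.mem_Icc, not_and, not_le] at hm'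
    have h3 := hm' hm.1
    have h4 : x < m * k := by
      rw [Nat.div_lt_iff_lt_mul hk.1] at h3
      exact h3
    have h5 : x / k ^ 2 / m ^ 2 = 0 := by
      rw [Nat.div_div_eq_div_mul]
      apply Nat.div_eq_of_lt
      have h6 : 1 ≤ m * k := Nat.mul_pos hm.1 hk.1
      calc x < m * k := h4
        _ ≤ (m * k) * (m * k) := Nat.le_mul_of_pos_left _ h6
        _ = k ^ 2 * m ^ 2 := by ring
    rw [h5]
    simp [Mn]
  rw [Finset.sum_congr rfl h1, Finset.sum_comm]
  rcases Nat.eq_zero_or_pos x with h0 | h0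
  · subst h0
    simp [Mn]
  rw [Finset.sum_eq_single 1]
  · rw [Finset.sum_eq_single 1]
    · simp
    · intro k hk hk1
      rw [if_neg]
      simpa using hk1
    · intro h
      exact absurd (Finset.mem_Icc.2 ⟨le_rfl, h0⟩) h
  · intro n hn hn1
    rw [Finset.mem_Icc] at hn
    have h2 : ∑ k ∈ Icc 1 x, (if k ∣ n then ((ArithmeticFunction.moebius k : ℤ) : ℝ) * Mn (x / n ^ 2) else 0) =
        (((∑ k ∈ n.divisors, ArithmeticFunction.moebius k : ℤ)) : ℝ) * Mn (x / n ^ 2) := by
      push_cast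
      rw [Finset.sum_mul, ← Finset.sum_filter]
      refine Finset.sum_congr ?_ fun _ _ => rfl
      ext k
      simp only [Finset.mem_filter, Finset.mem_Icc, Nat.mem_divisors]
      constructor
      · rintro ⟨h3, h4⟩
        exact ⟨h4, by omega⟩
      · rintro ⟨h3, h4⟩
        have h5 := Nat.le_of_dvd (by omega) h3
        exact ⟨⟨Nat.pos_of_dvd_of_pos h3 (by omega), by omega⟩, h3⟩
    rw [h2]
    have h3 : (∑ k ∈ n.divisors, ArithmeticFunction.moebius k : ℤ) = 0 := by
      rw [← ArithmeticFunction.coe_mul_zeta_apply, ArithmeticFunction.moebius_mul_coe_zeta,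
        ArithmeticFunction.one_apply_ne hn1]
    rw [h3]
    simp
  · intro h
    exact absurd (Finset.mem_Icc.2 ⟨le_rfl, h0⟩) h

end

end Pool.Agent.Q32.DS
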