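import Pool.Agent.Q32.DS.A

set_option autoImplicit false

open Filter Topology Finset

namespace Pool.Agent.Q32.DS

open Pool.Agent.H295R2 (zetaSup half_le_zetaSup zetaSup_le_one Mx maxM)

noncomputable section

lemma floor_div_sq (y : ℝ) (m : ℕ) : ⌊y / (m : ℝ) ^ 2⌋₊ = ⌊y⌋₊ / m ^ 2 := by
  have h : (m : ℝ) ^ 2 = ((m ^ 2 : ℕ) : ℝ) := by push_cast; rfl
  rw [h, Nat.floor_div_natCast]

lemma Mx_eq_sum (y : ℝ) : Mx y = ∑ k ∈ Icc 1 ⌊y⌋₊, ((ArithmeticFunction.moebius k : ℤ) : ℝ) * Lx (y / (k : ℝ) ^ 2) := by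
  rw [Mx_eq, Mn_eq]
  refine Finset.sum_congr rfl fun k _ => ?_
  rw [Lx_eq, floor_div_sq]

lemma Lx_eq_sum (y : ℝ) : Lx y = ∑ k ∈ Icc 1 ⌊y⌋₊, Mx (y / (k : ℝ) ^ 2) := by
  rw [Lx_eq, Ln_eq le_rfl]
  refine Finset.sum_congr rfl fun k _ => ?_
  rw [Mx_eq, floor_div_sq]

lemma Mx_zero_of_lt {y : ℝ} (hy : y < 1) : Mx y = 0 := by
  have : ⌊y⌋₊ = 0 := Nat.floor_eq_zero.mpr hy
  rw [Mx_eq, this]
  simp [Mn]

lemma Lx_zero_of_lt {y : ℝ} (hy : y < 1) : Lx y = 0 := by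
  have : ⌊y⌋₊ = 0 := Nat.floor_eq_zero.mpr hy
  rw [Lx_eq, this]
  simp [Ln]

lemma sum_rpow_le {s : ℝ} (hs : 1 < s) : ∃ T > 0, ∀ N : ℕ, ∑ k ∈ Icc 1 N, (k : ℝ) ^ (-s) ≤ T := by
  have hsum : Summable fun k : ℕ => (k : ℝ) ^ (-s) := Real.summable_nat_rpow.mpr (by linarith)
  refine ⟨(∑' k : ℕ, (k : ℝ) ^ (-s)) + 1, ?_, fun N => ?_⟩
  · have : 0 ≤ ∑' k : ℕ, (k : ℝ) ^ (-s) := tsum_nonneg fun k => by positivity
    linarith
  · have := hsum.sum_le_tsum (Icc 1 N) (fun k _ => by positivity)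
    linarith

lemma liouville_sup {e : ℝ} (he : 0 < e) :
    ∃ σ : ℝ, zetaSup ≤ σ ∧ σ ≤ zetaSup + e ∧ 1 / 2 < σ ∧ ∃ C > 0, ∀ y : ℝ, 0 ≤ y → |Lx y| ≤ C * y ^ σ := by
  obtain ⟨σ, h1, h2, h3, -, C, hC0, hC⟩ := Pool.Agent.H295R2.mertens_sup he
  obtain ⟨T, hT0, hT⟩ := sum_rpow_le (s := 2 * σ) (by linarith)
  refine ⟨σ, h1, h2, h3, C * T, by positivity, fun y hy => ?_⟩
  rw [Lx_eq_sum]
  calc |∑ k ∈ Icc 1 ⌊y⌋₊, Mx (y / (k : ℝ) ^ 2)| ≤ ∑ k ∈ Icc 1 ⌊y⌋₊, |Mx (y / (k : ℝ) ^ 2)| :=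
        Finset.abs_sum_le_sum_abs _ _
    _ ≤ ∑ k ∈ Icc 1 ⌊y⌋₊, C * y ^ σ * (k : ℝ) ^ (-(2 * σ)) := by
        refine Finset.sum_le_sum fun k hk => ?_
        rw [Finset.mem_Icc] at hk
        have hk0 : (0 : ℝ) < k := by exact_mod_cast hk.1
        rcases lt_or_ge (y / (k : ℝ) ^ 2) 1 with h | h
        · rw [Mx_zero_of_lt h, abs_zero]
          positivity
        · refine (hC _ h).trans (le_of_eq ?_)
          rw [Real.div_rpow hy (by positivity), ← Real.rpow_natCast (k : ℝ) 2, ← Real.rpow_mul hk0.le,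
            Real.rpow_neg hk0.le]
          push_cast
          field_simp
    _ = C * y ^ σ * ∑ k ∈ Icc 1 ⌊y⌋₊, (k : ℝ) ^ (-(2 * σ)) := by rw [Finset.mul_sum]
    _ ≤ C * y ^ σ * T := by
        have := hT ⌊y⌋₊
        gcongr
    _ = C * T * y ^ σ := by ring

/-- the lower bound for `M` at the points `x/h` for real `x` -/
lemma mertens_real {δ ε : ℝ} (hδ : 0 < δ) (hδ1 : δ ≤ 1) (hε : 0 < ε) :
    ∀ᶠ x : ℝ in atTop, ∃ h : ℕ, 1 ≤ h ∧ (h : ℝ) ≤ x ^ δ ∧ x ^ (zetaSup - ε) ≤ |Mx (x / h)| := by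
  have hΘ1 := half_le_zetaSup
  have hΘ2 := zetaSup_le_one
  set e : ℝ := min (ε / 2) (1 / 8) with he
  have he0 : 0 < e := by rw [he]; apply lt_min <;> linarith
  have he1 : e ≤ ε / 2 := min_le_left _ _
  have he2 : e ≤ 1 / 8 := min_le_right _ _
  have hlow := tendsto_nat_floor_atTop.eventually (Pool.Agent.H295R2.mertens_local_lower hδ hδ1 he0) (α := ℝ)
  have hbig2 : ∀ᶠ x : ℝ in atTop, 2 ≤ x ^ e := (tendsto_rpow_atTop he0).eventually_ge_atTop 2
  filter_upwards [hlow, hbig2, eventually_ge_atTop (2 : ℝ)] with x h1 h3 hx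
  have hx1 : (1 : ℝ) ≤ x := by linarith
  have hx0 : (0 : ℝ) < x := by linarith
  obtain ⟨h, hh1, hh2, hh3⟩ := h1
  have hfl : (⌊x⌋₊ : ℝ) ≤ x := Nat.floor_le hx0.le
  have hfl2 : x / 2 ≤ ⌊x⌋₊ := by
    have := Nat.lt_floor_add_one x
    linarith
  have hMx : Mx ((⌊x⌋₊ : ℝ) / h) = Mx (x / h) := by
    rw [Mx_eq, Mx_eq, Nat.floor_div_natCast, Nat.floor_natCast, Nat.floor_div_natCast]
  refine ⟨h, hh1, hh2.trans (by gcongr), ?_⟩
  rw [← hMx]
  refine le_trans ?_ hh3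
  calc x ^ (zetaSup - ε) ≤ x ^ (zetaSup - 2 * e) := Real.rpow_le_rpow_of_exponent_le hx1 (by linarith)
    _ ≤ (x / 2) ^ (zetaSup - e) := by
        rw [Real.div_rpow hx0.le (by norm_num), le_div_iff₀ (by positivity)]
        have e1 : (2 : ℝ) ^ (zetaSup - e) ≤ 2 := by
          calc (2 : ℝ) ^ (zetaSup - e) ≤ 2 ^ (1 : ℝ) := Real.rpow_le_rpow_of_exponent_le (by norm_num) (by linarith)
            _ = 2 := Real.rpow_one 2
        calc x ^ (zetaSup - 2 * e) * 2 ^ (zetaSup - e) ≤ x ^ (zetaSup - 2 * e) * x ^ e := by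
              gcongr
              exact e1.trans h3
          _ = x ^ (zetaSup - e) := by rw [← Real.rpow_add hx0]; congr 1; ring
    _ ≤ (⌊x⌋₊ : ℝ) ^ (zetaSup - e) := by
        apply Real.rpow_le_rpow (by positivity) hfl2 (by linarith)

/-- the lower bound for `L` at the points `x/h`, if `ζ` has a zero to the right of the critical line -/
theorem liouville_lower {δ ε : ℝ} (hδ : 0 < δ) (hδ1 : δ ≤ 1) (hε : 0 < ε) (hΘ : 1 / 2 < zetaSup) :
    ∀ᶠ x : ℝ in atTop, ∃ h : ℕ, 1 ≤ h ∧ (h : ℝ) ≤ x ^ δ ∧ x ^ (zetaSup - ε) ≤ |Lx (x / h)| := by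
  have hΘ2 := zetaSup_le_one
  set η : ℝ := min (δ / 4) (ε / 4) with hη
  have hη0 : 0 < η := by rw [hη]; apply lt_min <;> linarith
  have hη1 : η ≤ δ / 4 := min_le_left _ _
  have hη2 : η ≤ ε / 4 := min_le_right _ _
  set e : ℝ := η * (2 * zetaSup - 1) / 8 with he
  have he0 : 0 < e := by rw [he]; have : 0 < 2 * zetaSup - 1 := by linarith
                         positivity
  have he1 : 8 * e ≤ η := by
    rw [he]
    nlinarith
  have he2 : 8 * e = η * (2 * zetaSup - 1) := by rw [he]; ring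
  obtain ⟨σ, hσ1, hσ2, hσ3, C, hC0, hC⟩ := liouville_sup he0
  obtain ⟨T, hT0, hT⟩ := sum_rpow_le (s := 1 + e) (by linarith)
  filter_upwards [mertens_real (δ := δ / 2) (by linarith) (by linarith) (ε := 2 * e) (by linarith),
    (tendsto_rpow_atTop he0).eventually_gt_atTop (T * (1 + C)), eventually_ge_atTop (2 : ℝ)] with x hx1 hx2 hx3
  have hx4 : (1 : ℝ) ≤ x := by linarith
  have hx0 : (0 : ℝ) < x := by linarith
  obtain ⟨h, hh1, hh2, hh3⟩ := hx1
  have hh0 : (1 : ℝ) ≤ h := by exact_mod_cast hh1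
  by_contra hcon
  push Not at hcon
  have key : ∀ k ∈ Icc 1 ⌊x / h⌋₊, |((ArithmeticFunction.moebius k : ℤ) : ℝ) * Lx (x / h / (k : ℝ) ^ 2)| ≤
      (1 + C) * x ^ (zetaSup - 6 * e) * (k : ℝ) ^ (-(1 + e)) := by
    intro k hk
    rw [Finset.mem_Icc] at hk
    have hk0 : (0 : ℝ) < k := by exact_mod_cast hk.1
    have hmu : |((ArithmeticFunction.moebius k : ℤ) : ℝ)| ≤ 1 := by
      have := ArithmeticFunction.abs_moebius_le_one (n := k)
      exact_mod_cast this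
    rw [abs_mul]
    have hP : 0 < x ^ (zetaSup - 6 * e) := by positivity
    have hQ : 0 < (k : ℝ) ^ (-(1 + e)) := by positivity
    have hL : |Lx (x / h / (k : ℝ) ^ 2)| ≤ (1 + C) * x ^ (zetaSup - 6 * e) * (k : ℝ) ^ (-(1 + e)) := by
      rcases le_or_gt (k : ℝ) (x ^ η) with hc | hc
      · have h1 : x / h / (k : ℝ) ^ 2 = x / ((h * k ^ 2 : ℕ) : ℝ) := by
          push_cast
          rw [div_div]
        have h2 : ((h * k ^ 2 : ℕ) : ℝ) ≤ x ^ δ := by
          push_cast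
          calc (h : ℝ) * (k : ℝ) ^ 2 ≤ x ^ (δ / 2) * (x ^ η) ^ 2 := by gcongr
            _ = x ^ (δ / 2 + η * 2) := by
                rw [Real.rpow_add hx0, Real.rpow_mul hx0.le]
                norm_num
            _ ≤ x ^ δ := Real.rpow_le_rpow_of_exponent_le hx4 (by linarith)
        have h3 := hcon (h * k ^ 2) (Nat.mul_pos hh1 (pow_pos hk.1 2)) h2
        rw [h1]
        refine h3.le.trans ?_
        have h4 : 1 ≤ x ^ (η * (1 + e)) * (k : ℝ) ^ (-(1 + e)) := by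
          rw [Real.rpow_mul hx0.le, Real.rpow_neg hk0.le, ← div_eq_mul_inv, one_le_div (by positivity)]
          gcongr
        calc x ^ (zetaSup - ε) ≤ x ^ (zetaSup - ε) * (x ^ (η * (1 + e)) * (k : ℝ) ^ (-(1 + e))) := by
              refine le_mul_of_one_le_right (by positivity) h4
          _ = x ^ (zetaSup - ε + η * (1 + e)) * (k : ℝ) ^ (-(1 + e)) := by
              rw [Real.rpow_add hx0]; ring
          _ ≤ x ^ (zetaSup - 6 * e) * (k : ℝ) ^ (-(1 + e)) := by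
              gcongr
              nlinarith
          _ ≤ (1 + C) * x ^ (zetaSup - 6 * e) * (k : ℝ) ^ (-(1 + e)) := by
              gcongr
              nlinarith
      · have h1 := hC (x / h / (k : ℝ) ^ 2) (by positivity)
        refine h1.trans ?_
        have h2 : (x / h / (k : ℝ) ^ 2) ^ σ ≤ x ^ σ * (k : ℝ) ^ (-(2 * σ)) := by
          have h5 : x ^ σ * (k : ℝ) ^ (-(2 * σ)) = (x / (k : ℝ) ^ 2) ^ σ := by
            rw [Real.div_rpow hx0.le (by positivity), ← Real.rpow_natCast (k : ℝ) 2, ← Real.rpow_mul hk0.le,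
              Real.rpow_neg hk0.le]
            push_cast
            field_simp
          rw [h5]
          apply Real.rpow_le_rpow (by positivity) _ (by linarith)
          gcongr
          exact div_le_self hx0.le hh0
        have h3 : (k : ℝ) ^ (-(2 * σ)) ≤ x ^ (-(η * (2 * σ - 1 - e))) * (k : ℝ) ^ (-(1 + e)) := by
          have h6 : (k : ℝ) ^ (-(2 * σ)) = (k : ℝ) ^ (-(2 * σ - 1 - e)) * (k : ℝ) ^ (-(1 + e)) := by
            rw [← Real.rpow_add hk0]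
            congr 1
            ring
          rw [h6]
          gcongr
          rw [Real.rpow_neg hk0.le, Real.rpow_neg hx0.le, Real.rpow_mul hx0.le]
          gcongr
          nlinarith
        calc C * (x / h / (k : ℝ) ^ 2) ^ σ ≤ C * (x ^ σ * (x ^ (-(η * (2 * σ - 1 - e))) * (k : ℝ) ^ (-(1 + e)))) := by
              gcongr
              exact h2.trans (by gcongr)
          _ = C * x ^ (σ + (-(η * (2 * σ - 1 - e)))) * (k : ℝ) ^ (-(1 + e)) := by
              rw [Real.rpow_add hx0]; ring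
          _ ≤ C * x ^ (zetaSup - 6 * e) * (k : ℝ) ^ (-(1 + e)) := by
              gcongr
              nlinarith
          _ ≤ (1 + C) * x ^ (zetaSup - 6 * e) * (k : ℝ) ^ (-(1 + e)) := by
              gcongr
              linarith
    calc |((ArithmeticFunction.moebius k : ℤ) : ℝ)| * |Lx (x / h / (k : ℝ) ^ 2)| ≤ 1 * |Lx (x / h / (k : ℝ) ^ 2)| := by
          gcongr
      _ ≤ _ := by rw [one_mul]; exact hL
  have h7 : |Mx (x / h)| ≤ (1 + C) * x ^ (zetaSup - 6 * e) * T := by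
    rw [Mx_eq_sum]
    refine (Finset.abs_sum_le_sum_abs _ _).trans ((Finset.sum_le_sum key).trans ?_)
    rw [← Finset.mul_sum]
    have := hT ⌊x / h⌋₊
    gcongr
  have h8 := hh3.trans h7
  have h9 : x ^ (zetaSup - 2 * e) = x ^ (zetaSup - 6 * e) * (x ^ e * x ^ (3 * e)) := by
    rw [← Real.rpow_add hx0, ← Real.rpow_add hx0]
    congr 1
    ring
  have h10 : 1 ≤ x ^ (3 * e) := Real.one_le_rpow hx4 (by linarith)
  have hP : 0 < x ^ (zetaSup - 6 * e) := by positivity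
  have h11 : T * (1 + C) < x ^ e * x ^ (3 * e) := lt_of_lt_of_le hx2 (le_mul_of_one_le_right (by positivity) h10)
  rw [h9] at h8
  have h12 : x ^ (zetaSup - 6 * e) * (T * (1 + C)) < x ^ (zetaSup - 6 * e) * (x ^ e * x ^ (3 * e)) :=
    mul_lt_mul_of_pos_left h11 hP
  nlinarith

end

end Pool.Agent.Q32.DS
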